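import Pool.Agent.BEO.Stmts

/-!
# BEO, row LPO: the Laplacian of `|x|^(2k) H` (port of Helper52_BEB/LPF.lean)
-/

set_option autoImplicit false

namespace Pool.Agent.BEO.H27

open Pool.Agent.BEO MvPolynomial

theorem pd_rho {d : ℕ} (i : Fin d) : pderiv i (rho d) = 2 * (X i : Pl d) := by
  unfold rho
  rw [map_sum, Finset.sum_eq_single i]
  · rw [Derivation.leibniz_pow, pderiv_X_self]
    simp
  · intro j _ hj
    rw [Derivation.leibniz_pow, pderiv_X_of_ne hj]
    simp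
  · intro h
    exact absurd (Finset.mem_univ i) h

theorem hC2 {d : ℕ} : (C (2 : ℝ) : Pl d) = 2 := map_ofNat C 2

theorem pd_pow {d : ℕ} (c : ℕ) (i : Fin d) :
    pderiv i (rho d ^ (c + 1)) = C (2 * ((c : ℝ) + 1)) * rho d ^ c * X i := by
  rw [Derivation.leibniz_pow, pd_rho, Nat.add_sub_cancel]
  have h1 : (C (2 * ((c : ℝ) + 1)) : Pl d) = 2 * ((c : Pl d) + 1) := by
    rw [C_mul, C_add, C_1, hC2]
    simp
  rw [h1, nsmul_eq_mul, smul_eq_mul]
  push_cast
  ring

theorem hom_rho (d : ℕ) : (rho d).IsHomogeneous 2 := by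
  unfold rho
  apply IsHomogeneous.sum
  intro i _
  exact (isHomogeneous_X ℝ i).pow 2

theorem euler_rho (d c : ℕ) :
    ∑ i : Fin d, X i * pderiv i (rho d ^ c) = (2 * (c : Pl d)) * rho d ^ c := by
  have h := ((hom_rho d).pow c).sum_X_mul_pderiv
  rw [h, nsmul_eq_mul]
  push_cast
  ring

theorem lpo : LpoStmt := by
  intro d l c H hH hl
  have hE := hH.sum_X_mul_pderiv
  rw [nsmul_eq_mul] at hE
  have hR := euler_rho d c
  unfold lap at hl ⊢
  have h1 : ∀ i : Fin d, pderiv i (pderiv i (rho d ^ (c + 1) * H)) =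
      C (2 * ((c : ℝ) + 1)) * (X i * pderiv i (rho d ^ c)) * H +
      C (2 * ((c : ℝ) + 1)) * rho d ^ c * H +
      2 * (C (2 * ((c : ℝ) + 1)) * rho d ^ c * (X i * pderiv i H)) +
      rho d ^ (c + 1) * pderiv i (pderiv i H) := by
    intro i
    simp only [pderiv_mul, map_add, pd_pow, pderiv_C, pderiv_X_self]
    ring
  simp only [h1]
  rw [Finset.sum_add_distrib, Finset.sum_add_distrib, Finset.sum_add_distrib,
    ← Finset.sum_mul, ← Finset.mul_sum, hR, Finset.sum_const, ← Finset.mul_sum,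
    ← Finset.mul_sum, hE, ← Finset.mul_sum, hl, Finset.card_univ, Fintype.card_fin,
    nsmul_eq_mul]
  have h2 : (C (2 * ((c : ℝ) + 1) * (2 * ((c : ℝ) + 1) + 2 * l + d - 2)) : Pl d) =
      C (2 * ((c : ℝ) + 1)) * (2 * ((c : Pl d) + 1) + 2 * (l : Pl d) + (d : Pl d) - 2) := by
    rw [C_mul]
    congr 1
    rw [C_sub, C_add, C_add, C_mul, C_mul, C_add, C_1, hC2]
    simp
  rw [h2]
  ring

end Pool.Agent.BEO.H27
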